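import Pool.Agent.X234.QF.Value

/-!
# The complete q-analogue of the modulo p^5 supercongruence fails at p = 11

`S p` is the sum `∑_{j=0}^{p-1} [2(p-1)j-1] ((q^{-1};q^{p-1})_j/(q^{p-1};q^{p-1})_j)^{2(p-1)}
q^{j(p-1)^2}` in `ℚ(q)` and `R p` is the proposed value
`(1/6)(p-1)(p-3)(2p-3)(p-2)^2 (1-q)^2 Φ_p(q)^4`.
They are not congruent modulo `Φ_p(q)^5` for the prime `p = 11`.
-/

namespace Pool.Agent.Results.MP_328b17_nt.FailsAtEleven

open Polynomial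
open Pool.Agent.X234.QF

theorem result :
    ¬ CongrMod (cyclotomic 11 ℚ ^ 5) (S 11) (R 11) ∧
    ∃ p : ℕ, p.Prime ∧ 3 < p ∧ ¬ CongrMod (cyclotomic p ℚ ^ 5) (S p) (R p) :=
  ⟨not_congr_eleven, 11, by norm_num, by norm_num, not_congr_eleven⟩

end Pool.Agent.Results.MP_328b17_nt.FailsAtEleven
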